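import Pool.Agent.W172.WL.Stm

set_option autoImplicit false

open MeasureTheory Set Filter Topology
open scoped ENNReal NNReal

namespace Pool.Agent.W138.WL

open Pool.Agent.W172.WL

lemma hol_cont {α : ℝ} (hα : 0 < α) {f : ℝ → ℝ} (h : Hol α f) : Continuous f := by
  obtain ⟨C, hC⟩ := h
  rw [continuous_iff_continuousAt]
  intro x
  rw [ContinuousAt, tendsto_iff_dist_tendsto_zero]
  have h1 : Tendsto (fun y : ℝ => C * |y - x| ^ α) (𝓝 x) (𝓝 0) := by
    have h2 : Tendsto (fun y : ℝ => |y - x|) (𝓝 x) (𝓝 0) := by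
      have : Continuous fun y : ℝ => |y - x| := by fun_prop
      have := this.tendsto x
      simpa using this
    have h3 := h2.rpow_const (p := α) (Or.inr hα.le)
    rw [Real.zero_rpow hα.ne'] at h3
    simpa using h3.const_mul C
  refine squeeze_zero (fun y => dist_nonneg) (fun y => ?_) h1
  rw [Real.dist_eq]
  exact hC y x

theorem det : S_UP → S_POS → S_GEO → S_LOWM → S_DET := by
  intro hUP hPOS hGEO hLOWM b α hb hα hα1 f hf huac
  have hc : Continuous f := hol_cont hα hf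
  set μ : Measure ℝ := (volume.restrict (Ico (0:ℝ) 1)).map f with hμ
  have hcomp : ∀ y : ℝ, IsCompact {x : ℝ | x ∈ Icc (0:ℝ) 1 ∧ f x = y} := by
    intro y
    have : {x : ℝ | x ∈ Icc (0:ℝ) 1 ∧ f x = y} = Icc (0:ℝ) 1 ∩ f ⁻¹' {y} := by
      ext x; simp
    rw [this]
    exact isCompact_Icc.inter_right (isClosed_singleton.preimage hc)
  have h1 : ∀ k : ℕ, ∀ᵐ y ∂μ, ENNReal.ofReal ((1 - α) * ((k + 1 : ℝ) / (k + 2))) ≤
      dimH {x : ℝ | x ∈ Icc (0:ℝ) 1 ∧ f x = y} := by
    intro k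
    have hk : (0:ℝ) < k + 2 := by positivity
    have hs0 : 0 ≤ (1 - α) * ((k + 1 : ℝ) / (k + 2)) := by
      have : 0 ≤ 1 - α := by linarith
      positivity
    have hs1 : (1 - α) * ((k + 1 : ℝ) / (k + 2)) < 1 - α := by
      have h3 : (k + 1 : ℝ) / (k + 2) < 1 := by
        rw [div_lt_one hk]; linarith
      have : 0 < 1 - α := by linarith
      nlinarith
    filter_upwards [hLOWM b α _ hb hα hα1 hs0 hs1 f hf huac] with y hy
    obtain ⟨N, c, hc0, hT⟩ := hy
    exact hGEO b _ c N _ hb hs0 hc0 (hcomp y) (fun x hx => hx.1) hT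
  have h2 : ∀ᵐ y ∂μ, ENNReal.ofReal (1 - α) ≤
      dimH {x : ℝ | x ∈ Icc (0:ℝ) 1 ∧ f x = y} := by
    filter_upwards [ae_all_iff.2 h1] with y hy
    have hlim : Tendsto (fun k : ℕ => ENNReal.ofReal ((1 - α) * ((k + 1 : ℝ) / (k + 2)))) atTop
        (𝓝 (ENNReal.ofReal (1 - α))) := by
      apply ENNReal.tendsto_ofReal
      have h4 : Tendsto (fun k : ℕ => (k + 1 : ℝ) / (k + 2)) atTop (𝓝 1) := by
        have h5 : Tendsto (fun k : ℕ => 1 - 1 / ((k : ℝ) + 2)) atTop (𝓝 (1 - 0)) := by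
          refine tendsto_const_nhds.sub ?_
          have h6 : Tendsto (fun k : ℕ => (k : ℝ) + 2) atTop atTop :=
            tendsto_atTop_add_const_right _ _ tendsto_natCast_atTop_atTop
          have := h6.inv_tendsto_atTop
          refine this.congr fun k => ?_
          simp
        rw [sub_zero] at h5
        refine h5.congr fun k => ?_
        have : (k : ℝ) + 2 ≠ 0 := by positivity
        field_simp
        ring
      simpa using h4.const_mul (1 - α)
    exact le_of_tendsto' hlim hy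
  -- the exceptional set
  set B : Set ℝ := {y | ¬ (ENNReal.ofReal (1 - α) ≤
      dimH {x : ℝ | x ∈ Icc (0:ℝ) 1 ∧ f x = y})} with hB
  have hBμ : μ B = 0 := h2
  set E := toMeasurable μ B with hE
  have hEm : MeasurableSet E := measurableSet_toMeasurable _ _
  have hEμ : μ E = 0 := by rw [hE, measure_toMeasurable, hBμ]
  have h3 : volume {x : ℝ | x ∈ Ico (0:ℝ) 1 ∧ f x ∈ E} = 0 := by
    rw [hμ, Measure.map_apply hc.measurable hEm,
      Measure.restrict_apply (hc.measurable hEm)] at hEμ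
    have : {x : ℝ | x ∈ Ico (0:ℝ) 1 ∧ f x ∈ E} = f ⁻¹' E ∩ Ico 0 1 := by
      ext x; simp [and_comm]
    rw [this]
    exact hEμ
  have h4 := hPOS b α hb hα hα1 f hf huac E hEm h3
  have h5 : ∀ᵐ y : ℝ, y ∉ E ∩ f '' Icc (0:ℝ) 1 := measure_eq_zero_iff_ae_notMem.1 h4
  filter_upwards [h5, hUP α hα hα1 f hf] with y hy hy2 hyf
  refine le_antisymm hy2 ?_
  by_contra hlt
  exact hy ⟨subset_toMeasurable μ B hlt, hyf⟩

end Pool.Agent.W138.WL
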